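import Pool.Agent.Helper60.FST.Lva
import Pool.Agent.Helper61.FST.Exh
import Pool.Agent.Helper69.FST.Lev

/-! ROW `LVF` of FIRST (helper15). -/

set_option autoImplicit false

namespace Pool.Agent.Helper60.FST

open Finset Filter Topology Matrix Pool.Agent.Helper69.RK Pool.Agent.Helper31.EC Pool.Agent.Helper31.EC.Sp
open Pool.Agent.Helper40.EL Pool.Agent.Helper89.LX Pool.Agent.Helper3.LF Pool.Agent.Helper84.MT
open Pool.Agent.Helper7.RD (volC volCO volC_eq volC_le_of volCO_le volCO_nonneg volC_le_M)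
open Pool.Agent.Helper36.AM (STu)
open Pool.Agent.Helper29.MX
open Pool.Agent.Helper15.FST

noncomputable section

variable {S : Sp} {N D : ℕ} {E : ℕ → ℕ} {ι : Type}

/-- all K-forms of the window, `UL` -/
theorem lvf_UL [Finite ι] (s : MSys S N E ι) {e c : ℝ} (he : 0 < e) (h1 : e ≤ 1) (h : UL s 1 c ≤ UL s e c)
    {x : ∀ k, FD (S.F k) (Mon N D)} (hx : KAd s (rbot S) D c x) : GrB s.Q x (1 - e) := by
  refine lvf_all s (rbot S) he h1 ?_ hx
  have e1 := Pool.Agent.Helper69.FST.UL_one s c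
  have e2 : UL s e c = e * (N - volKO (s.trn e he h1) (rbot (S.chg S.tr e he)) (c / e)) := dif_pos ⟨he, h1⟩
  rw [e1, e2] at h
  exact h

/-- one degree for all windows, type-labels -/
theorem deg_all (N g : ℕ) (hst : ∀ m, m < N → STu m) : ∃ D : ℕ, 1 ≤ D ∧ ∀ (ι : Type) [Finite ι] (S : Sp)
    (s : MSys S N (lin g) ι) (c : ℝ) (_ : 0 ≤ c) (_ : c < 1), volK s (rbot S) D c ≤ volKO s (rbot S) c := by
  rcases Nat.eq_zero_or_pos N with hN | hN
  · subst hN
    refine ⟨1, le_rfl, fun ι _ S s c _ _ => ?_⟩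
    rw [volK_eq, volKO_eq]
    have h1 := volC_le_M (C := KZ (rbot S)) (A := Pool.Agent.Helper87.NSL.cndR s (rbot S) c) (Q := s.Q) (D := 1)
    have h2 := volCO_nonneg (C := KZ (rbot S)) (A := Pool.Agent.Helper87.NSL.cndR s (rbot S) c) (Q := s.Q)
    rw [Nat.cast_zero] at h1
    exact h1.trans h2
  · obtain ⟨D, h1, h2⟩ := Pool.Agent.Helper61.FST.degB hN hst g
    exact ⟨D, h1, fun ι _ S s c h0 h3 => (h2 D le_rfl ι S s c h0 h3).le⟩

/-- **ROW LVF** -/
theorem row_lvf : ROW_LVF := by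
  intro N g r _ hst
  obtain ⟨D, hD, hdeg⟩ := deg_all N g hst
  refine ⟨D, hD, fun S s e c he he1 hc hce h => ?_⟩
  obtain ⟨y, hy⟩ := (gaq s.Q D).exists_optfK (KZ (rbot S)) (Pool.Agent.Helper87.NSL.cndR s (rbot S) c)
  refine ⟨y, hy.1, ?_, lvf_UL s he he1.le h hy.1⟩
  have h1 := hdeg (Fin r) S s c hc (hce.trans_lt he1)
  rw [volK_eq, volC_eq hy] at h1
  exact h1

end

end Pool.Agent.Helper60.FST
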