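import Pool.Agent.Helper71.VIS.Trk
import Pool.Agent.Helper84.MT.Row


/-! FORMS OF TRUNCATIONS, seen as forms of the point (helper71's `untFD`), have gradients of the size of the truncation:
`GrB Q (untFD ..) (1 - r)`. -/

set_option autoImplicit false

namespace Pool.Agent.Helper60.FST

open Finset Filter Topology Matrix MvPolynomial Pool.Agent.Helper69.RK Pool.Agent.Helper31.EC
open Pool.Agent.Helper31.EC.Sp
open Pool.Agent.Helper40.EL Pool.Agent.Helper89.LX Pool.Agent.Helper3.LF Pool.Agent.Helper84.MT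
open Pool.Agent.Helper95.LF
open Pool.Agent.Helper3.PR (cutm cutm_cpd cutFD)
open Pool.Agent.Helper26.BXD
open Pool.Agent.Helper38.NSL (cld cld_symm phi_cld Cpd_cld)
open Pool.Agent.Helper52.SL (untL)
open Pool.Agent.Helper71.VIS

noncomputable section

variable {S : Sp} {M D : ℕ} {κ : Type}

/-- the constant -/
def kG (M D : ℕ) : ℝ := nn M D * (Cu D * Cm M D * 1 ^ D) ^ 2 *
  (M * nn M D * Cm M D ^ 2 * (nn M D * (nn M D * (Cu D * Cm M D * 2 ^ D) ^ 2)))

theorem kG_nonneg (M D : ℕ) : 0 ≤ kG M D := by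
  unfold kG
  have := nn_one M D
  positivity

/-- gradients of the closure of a form -/
theorem gam_cld_le {A : Matrix (Mon M D) (Mon M D) ℝ} {c : ℝ} (hA : Cpd c A) {r r' : ℝ} (hr : 0 < r) (hr1 : r ≤ 1)
    (h0 : 0 ≤ r') (h1 : r' ≤ r) (p : Fin M → ℝ) : r ^ 2 * gam r' (cld r A) p ≤ kG M D * phi r A p := by
  have hB : PdM (cld r A) := (Cpd_cld hA hr.le hr1).pdM
  have e1 := gam_comp (cld r A) hB r r' 1 hr h0 le_rfl p p (fun i => by rw [sub_self, abs_zero]; linarith)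
  have e2 := gam_le (cld r A) hB r hr p
  have e3 := phi_cld hA.pdM hr hr.le le_rfl p
  have hn := nn_one M D
  have h2 : (0 : ℝ) ≤ nn M D * (Cu D * Cm M D * 1 ^ D) ^ 2 := by positivity
  have h3 : (0 : ℝ) ≤ M * nn M D * Cm M D ^ 2 := by positivity
  calc r ^ 2 * gam r' (cld r A) p ≤ r ^ 2 * (nn M D * (Cu D * Cm M D * 1 ^ D) ^ 2 * gam r (cld r A) p) :=
        mul_le_mul_of_nonneg_left e1 (sq_nonneg r)
    _ = nn M D * (Cu D * Cm M D * 1 ^ D) ^ 2 * (r ^ 2 * gam r (cld r A) p) := by ring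
    _ ≤ nn M D * (Cu D * Cm M D * 1 ^ D) ^ 2 * (M * nn M D * Cm M D ^ 2 * phi r (cld r A) p) :=
        mul_le_mul_of_nonneg_left e2 h2
    _ ≤ nn M D * (Cu D * Cm M D * 1 ^ D) ^ 2 * (M * nn M D * Cm M D ^ 2 *
          (nn M D * (nn M D * (Cu D * Cm M D * 2 ^ D) ^ 2) * phi r A p)) :=
        mul_le_mul_of_nonneg_left (mul_le_mul_of_nonneg_left e3 h3) h2
    _ = kG M D * phi r A p := by
        unfold kG
        ring

theorem sub_unt {r : ℝ} {h0 : 0 < r} {K : ℕ → ℝ} (hK : (S.chg S.tr r h0).Sub K) : S.Sub K := by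
  refine ⟨hK.1, ?_⟩
  have h1 := hK.2.const_mul r
  rw [mul_zero] at h1
  refine h1.congr fun k => ?_
  show r * (Real.logb 2 (K k + 2) / (r * (S.F k).n)) = _
  have := (S.F k).pos
  field_simp

/-- THE GRADIENTS of a form of a truncation -/
theorem untFD_GrB [Finite κ] {Q : S.VV M} {r : ℝ} {h0 : 0 < r} {y : ∀ k, FD ((S.chg S.tr r h0).F k) (Mon M D)}
    (h1 : r ≤ 1) {B : κ → ∀ k, Setoid (S.F k).Ω}
    (hy : (gaq (Q.chg S.tr r h0) D).Adf (fcs (S.chg S.tr r h0) B) y) : GrB Q (untFD Q r h0 y) (1 - r) := by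
  have hx := untFD_adf h1 hy
  obtain ⟨K, hK, hT⟩ := form_typ (Q := Q.chg S.tr r h0) hy.fm
  have hK' : S.Sub K := sub_unt hK
  have hc := uG_cpd h1 hy
  refine GrB.of_gam hx.fm (by linarith) ⟨fun k => kG M D * K k, (S.Sub_const (kG_nonneg M D)).mul hK', ?_⟩
  -- typical points
  have hT1 : Typ (S := Lab.sp (fun k => (untFD Q r h0 y k).l)) (fun k (ω : ((untL (lb y)) k).T.Ω) =>
      phi (S.dl r k) ((y k).g ω) (Q.v k ((y k).l.p.π ω)) ≤ K k) := by
    have e1 : ∀ k, (S.chg S.tr r h0).dl 1 k = S.dl r k := fun k => by rw [chg_dl, mul_one]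
    have h2 : Tendsto (fun k => (y k).l.T.pb fun ω => ¬ phi ((S.chg S.tr r h0).dl 1 k) ((y k).g ω)
      (Q.v k ((y k).l.p.π ω)) ≤ K k) UF (𝓝 0) := hT
    simp only [e1] at h2
    exact h2
  have hT2 : Typ (S := Lab.sp (fun k => (untFD Q r h0 y k).l)) (fun k (ω : ((untL (lb y)) k).T.Ω) =>
      Cpd ((gaq Q D).cp k) (uG Q r h0 y k ω)) := hc
  refine typ_mono (typ_and hT1 hT2) ?_
  filter_upwards [hy 1 one_pos, hK'.1] with k hk hK0 ω hω hh
  obtain ⟨h3, h4⟩ := hh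
  have hcp := (hk.2.1 ω hω).1
  have e3 : (untFD Q r h0 y k).g ω = cld (S.dl r k) ((y k).g ω) := by
    have e4 : (untFD Q r h0 y k).g ω = cutm ((gaq Q D).cp k) (uG Q r h0 y k ω) := rfl
    rw [e4, cutm_pos h4]
    unfold uG
    rw [cutm_pos hcp]
  rw [e3]
  have hr := S.dl_pos r k
  have hr1 : S.dl r k ≤ 1 := by
    have := Pool.Agent.Helper71.VIS.dl_anti S h0.le k
    have e : S.dl 0 k = 1 := by unfold Sp.dl; simp
    rwa [e] at this
  have h5 := gam_cld_le hcp hr hr1 (S.dl_pos 1 k).le (Pool.Agent.Helper71.VIS.dl_anti S h1 k) (Q.v k ((y k).l.p.π ω))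
  have h6 : S.dl r k ^ 2 * gam (S.dl 1 k) (cld (S.dl r k) ((y k).g ω)) (Q.v k ((y k).l.p.π ω)) ≤ kG M D * K k :=
    h5.trans (mul_le_mul_of_nonneg_left h3 (kG_nonneg M D))
  have h7 : S.dl (1 - r) k / S.dl 1 k = 1 / S.dl r k := by
    have h8 : S.dl (1 - r) k * S.dl r k = S.dl 1 k := by
      unfold Sp.dl
      rw [← Real.rpow_add (by norm_num)]
      congr 1
      ring
    have h9 := (S.dl_pos 1 k).ne'
    rw [div_eq_div_iff h9 hr.ne', h8, one_mul]
  have h8 : (untFD Q r h0 y k).l.p.π ω = (y k).l.p.π ω := rfl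
  rw [h8, h7, div_pow, one_pow, mul_one_div, le_div_iff₀ (pow_pos hr 2)]
  linarith

end

end Pool.Agent.Helper60.FST
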