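import Pool.Agent.Helper84.MT.Row
import Pool.Agent.Helper14.MC.Cnt
import Pool.Agent.Helper17.KL.Can
import Pool.Agent.Helper69.DGR.Emb
import Pool.Agent.Helper84.KR.Ajo

/-! GRADIENTS FROM VOLUMES: if forms of large degree have the least volume of all degrees up to `η → 0` and gradients of
the size `2 ^ ((1 - u) n)`, then all forms of the class, of all degrees, have gradients of this size. -/

set_option autoImplicit false

namespace Pool.Agent.Helper60.FST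

open Finset Filter Topology Matrix MvPolynomial Pool.Agent.Helper69.RK Pool.Agent.Helper31.EC
open Pool.Agent.Helper31.EC.Sp
open Pool.Agent.Helper40.EL Pool.Agent.Helper89.LX Pool.Agent.Helper3.LF Pool.Agent.Helper84.MT
open Pool.Agent.Helper95.LF
open Pool.Agent.Helper69.DGR (upm upm_symm upm_qf upm_ge Jq_upm upx upx_Adf vol_upx cE cE_one)
open Pool.Agent.Helper14.MC (gx vx vx_UB vol_eq)
open Pool.Agent.Helper7.RD (volC volCO volC_eq volC_le_of volCO_le)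

noncomputable section

variable {S : Sp} {M D D' : ℕ} {κ : Type} {C : LC S} {A : κ → Part S} {Q : S.VV M}

/-! ### pointwise -/

/-- the trace of the gradient form from the quadratic form -/
theorem gam_tr {r : ℝ} {B : Matrix (Mon M D) (Mon M D) ℝ} {p : Fin M → ℝ} {c : ℝ}
    (h : ∀ e : Fin M → ℝ, e ⬝ᵥ ((1 + Jq r B p) *ᵥ e) ≤ c * (e ⬝ᵥ e)) : gam r B p ≤ M * c := by
  have h1 : ∀ i : Fin M, Jq r B p i i ≤ c := by
    intro i
    have h2 := h (Pi.single i 1)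
    have e1 : (Pi.single i 1 : Fin M → ℝ) ⬝ᵥ ((1 + Jq r B p) *ᵥ Pi.single i 1) = 1 + Jq r B p i i := by
      rw [single_dotProduct, one_mul, mulVec_single_one]
      show (1 + Jq r B p) i i = _
      rw [Matrix.add_apply, Matrix.one_apply_eq]
    have e2 : (Pi.single i 1 : Fin M → ℝ) ⬝ᵥ Pi.single i 1 = 1 := by
      rw [single_dotProduct, Pi.single_eq_same, one_mul]
    rw [e1, e2, mul_one] at h2
    linarith
  have h2 : gam r B p = ∑ i, Jq r B p i i := by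
    unfold gam
    exact Finset.sum_congr rfl fun i _ => (Jq_apply r B p i i).symm
  rw [h2]
  refine (Finset.sum_le_card_nsmul _ _ _ fun i _ => h1 i).trans (le_of_eq ?_)
  rw [nsmul_eq_mul, Finset.card_univ, Fintype.card_fin]

/-- `1 + J` of a form from a dominating form -/
theorem one_Jq_dom {r : ℝ} {X Y : Matrix (Mon M D) (Mon M D) ℝ} {K : ℝ} (hK : 1 ≤ K)
    (hd : ∀ v, v ⬝ᵥ (Y *ᵥ v) ≤ K * (v ⬝ᵥ (X *ᵥ v))) (p : Fin M → ℝ) (v : Fin M → ℝ) :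
    v ⬝ᵥ ((1 + Jq r Y p) *ᵥ v) ≤ K * (v ⬝ᵥ ((1 + Jq r X p) *ᵥ v)) := by
  rw [dv_add, dv_add, one_dv, mul_add]
  have h1 : v ⬝ᵥ (Jq r Y p *ᵥ v) ≤ K * (v ⬝ᵥ (Jq r X p *ᵥ v)) := by
    rw [Jq_qf, Jq_qf, Finset.mul_sum]
    exact Finset.sum_le_sum fun j _ => hd _
  have h2 := dot_self_nonneg v
  nlinarith

/-- the volumes of dominated forms -/
theorem GQ_dom {r : ℝ} {X Y : Matrix (Mon M D) (Mon M D) ℝ} (hX : PdM X) (hY : PdM Y) {K : ℝ} (hK : 1 ≤ K)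
    (hd : ∀ v, v ⬝ᵥ (Y *ᵥ v) ≤ K * (v ⬝ᵥ (X *ᵥ v))) (p : Fin M → ℝ) : GQ r Y p ≤ K ^ M * GQ r X p := by
  have h := det_le_pow (one_Jq_pd r hX.1 hX.nonneg p) (one_Jq_pd r hY.1 hY.nonneg p) (by linarith)
    (one_Jq_dom (r := r) hK hd p)
  rw [Fintype.card_fin] at h
  exact h

/-- gradients of a dominating form of almost the same volume -/
theorem gam_near {r : ℝ} {X Y : Matrix (Mon M D) (Mon M D) ℝ} (hX : PdM X) (hY : PdM Y) {p : Fin M → ℝ} {K ρ G : ℝ}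
    (hK : 1 ≤ K) (hρ : 0 ≤ ρ) (hd : ∀ v, v ⬝ᵥ (Y *ᵥ v) ≤ K * (v ⬝ᵥ (X *ᵥ v)))
    (hdet : GQ r X p ≤ ρ * GQ r Y p) (hG : gam r Y p ≤ G) : gam r X p ≤ M * (K ^ M * ρ * (1 + G)) := by
  apply gam_tr
  intro e
  have hA := one_Jq_pd r hY.1 hY.nonneg p
  have hB := one_Jq_pd r hX.1 hX.nonneg p
  have hKp : 0 < K := by linarith
  have h1 : (K • (1 + Jq r X p)).det ≤ K ^ M * ρ * (1 + Jq r Y p).det := by
    rw [Matrix.det_smul, Fintype.card_fin, mul_assoc]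
    exact mul_le_mul_of_nonneg_left hdet (pow_nonneg hKp.le M)
  have h2 := le_of_det_le hA (hB.smul hKp).1 (fun v => by
    rw [dv_smul]
    exact one_Jq_dom hK hd p v) h1 e
  rw [dv_smul] at h2
  have h3 : e ⬝ᵥ ((1 + Jq r Y p) *ᵥ e) ≤ (1 + G) * (e ⬝ᵥ e) := by
    have h4 := Jq_gam r Y hY p e
    have h5 := dot_self_nonneg e
    rw [dv_add, one_dv]
    nlinarith
  have h4 := hB.nonneg e
  have h5 : e ⬝ᵥ ((1 + Jq r X p) *ᵥ e) ≤ K * (e ⬝ᵥ ((1 + Jq r X p) *ᵥ e)) := by nlinarith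
  have h6 : 0 ≤ K ^ M * ρ := mul_nonneg (pow_nonneg hKp.le M) hρ
  calc e ⬝ᵥ ((1 + Jq r X p) *ᵥ e) ≤ K ^ M * ρ * (e ⬝ᵥ ((1 + Jq r Y p) *ᵥ e)) := h5.trans h2
    _ ≤ K ^ M * ρ * ((1 + G) * (e ⬝ᵥ e)) := mul_le_mul_of_nonneg_left h3 h6
    _ = K ^ M * ρ * (1 + G) * (e ⬝ᵥ e) := by ring

/-! ### means -/

/-- Markov with a small bad event -/
theorem pb_markov {F : FSp} (f : F.Ω → ℝ) (B : F.Ω → Prop) {c t : ℝ}
    (h1 : ∀ ω, F.μ ω ≠ 0 → ¬ B ω → 0 ≤ f ω) (h2 : ∀ ω, F.μ ω ≠ 0 → - c ≤ f ω) :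
    t * F.pb (fun ω => ¬ B ω ∧ t < f ω) ≤ ∑ ω, F.μ ω * f ω + c * F.pb B := by
  classical
  unfold FSp.pb mass
  rw [Finset.mul_sum, Finset.mul_sum, ← Finset.sum_add_distrib]
  refine Finset.sum_le_sum fun ω _ => ?_
  have hμ := F.nn ω
  by_cases h0 : F.μ ω = 0
  · have e1 : ∀ E : F.Ω → Prop, res F.μ E ω = 0 := by
      intro E
      unfold res
      split_ifs
      · exact h0
      · rfl
    rw [e1, e1, h0]
    simp
  · by_cases hB : B ω
    · rw [res_neg F.μ (fun ω => ¬ B ω ∧ t < f ω) ω (fun h => h.1 hB), res_pos F.μ B ω hB]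
      have := mul_le_mul_of_nonneg_left (h2 ω h0) hμ
      linarith [mul_comm c (F.μ ω)]
    · rw [res_neg F.μ B ω hB]
      by_cases hf : t < f ω
      · rw [res_pos F.μ (fun ω => ¬ B ω ∧ t < f ω) ω ⟨hB, hf⟩]
        have := mul_le_mul_of_nonneg_left hf.le hμ
        linarith [mul_comm t (F.μ ω)]
      · rw [res_neg F.μ (fun ω => ¬ B ω ∧ t < f ω) ω (fun h => hf h.2)]
        have := mul_nonneg hμ (h1 ω h0 hB)
        linarith

end

end Pool.Agent.Helper60.FST
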