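import Pool.Agent.Helper60.FST.Gvd
import Pool.Agent.Helper60.FST.Grb

/-! GRADIENTS FROM VOLUMES, part 2: probabilities. -/

set_option autoImplicit false

namespace Pool.Agent.Helper60.FST

open Finset Filter Topology Matrix MvPolynomial Pool.Agent.Helper69.RK Pool.Agent.Helper31.EC
open Pool.Agent.Helper31.EC.Sp
open Pool.Agent.Helper40.EL Pool.Agent.Helper89.LX Pool.Agent.Helper3.LF Pool.Agent.Helper84.MT
open Pool.Agent.Helper95.LF
open Pool.Agent.Helper69.DGR (upm upm_symm upm_qf upm_ge Jq_upm upx upx_Adf vol_upx cE cE_one)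
open Pool.Agent.Helper14.MC (gx vx vx_UB vol_eq)
open Pool.Agent.Helper7.RD (volC volCO volC_eq volC_le_of volCO_le)
open Pool.Agent.Helper71.VIS (gx_bd gx_nn)

noncomputable section

variable {S : Sp} {M D D' : ℕ} {κ : Type} {C : LC S} {A : κ → Part S} {Q : S.VV M}

/-- the gradients are at most `2 ^ (t n)` -/
def Gd (Q : S.VV M) (x : ∀ k, FD (S.F k) (Mon M D)) (t : ℝ) (k : ℕ) (ω : (x k).l.T.Ω) : Prop :=
  gam (S.dl 1 k) ((x k).g ω) (Q.v k ((x k).l.p.π ω)) ≤ 2 ^ (2 * t * (S.F k).n)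

/-- from `GrB` -/
theorem gd_of_GrB {x : ∀ k, FD (S.F k) (Mon M D)} {u : ℝ} (h : GrB Q x u) (e : ℝ) (he : 0 < e) :
    Tendsto (fun k => (x k).l.T.pb (fun ω => ¬ Gd Q x (1 - u + e) k ω)) UF (𝓝 0) := by
  obtain ⟨K, hK, hT⟩ := h
  have hT' : Tendsto (fun k => (x k).l.T.pb (fun ω => ¬ ∀ e : Fin M → ℝ,
    e ⬝ᵥ ((1 + Jq (S.dl 1 k) ((x k).g ω) (Q.v k ((x k).l.p.π ω))) *ᵥ e) ≤
      K k * (S.dl u k / S.dl 1 k) ^ 2 * (e ⬝ᵥ e))) UF (𝓝 0) := hT
  have h2e : 0 < 2 * e := by linarith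
  refine squeeze_zero' (Eventually.of_forall fun k => (x k).l.T.pb_nonneg _) ?_ hT'
  filter_upwards [((S.Sub_const (by positivity : (0 : ℝ) ≤ M)).mul hK).eventually_le h2e] with k hk
  refine FSp.pb_mono (x k).l.T ?_
  intro ω _ h3 h4
  apply h3
  have h5 := gam_tr h4
  refine h5.trans ?_
  have e1 : (S.dl u k / S.dl 1 k) ^ 2 = 2 ^ (2 * (1 - u) * (S.F k).n) := by
    unfold Sp.dl
    rw [← Real.rpow_sub (by norm_num), ← Real.rpow_natCast, ← Real.rpow_mul (by norm_num)]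
    congr 1
    push_cast
    ring
  rw [e1]
  have e2 : (2 : ℝ) ^ (2 * (1 - u + e) * (S.F k).n) = 2 ^ (2 * e * (S.F k).n) * 2 ^ (2 * (1 - u) * (S.F k).n) := by
    rw [← Real.rpow_add (by norm_num)]
    congr 1
    ring
  rw [e2, ← mul_assoc]
  exact mul_le_mul_of_nonneg_right (by linarith) (by positivity)

/-- to `GrB` -/
theorem GrB_of_gd {x : ∀ k, FD (S.F k) (Mon M D)} (hx : (gaq Q D).Fm x) {u : ℝ} (hu : u ≤ 1)
    (h : ∀ e : ℝ, 0 < e → Tendsto (fun k => (x k).l.T.pb (fun ω => ¬ Gd Q x (1 - u + e) k ω)) UF (𝓝 0)) :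
    GrB Q x u := by
  have key : ∀ k, (S.dl u k / S.dl 1 k) ^ 2 = 2 ^ (2 * (1 - u) * (S.F k).n) := by
    intro k
    unfold Sp.dl
    rw [← Real.rpow_sub (by norm_num), ← Real.rpow_natCast, ← Real.rpow_mul (by norm_num)]
    congr 1
    push_cast
    ring
  obtain ⟨K, hK, hT⟩ := typ_sub_le (S := (lb x).sp)
    (fun k (ω : (x k).l.T.Ω) => gam (S.dl 1 k) ((x k).g ω) (Q.v k ((x k).l.p.π ω)) / (S.dl u k / S.dl 1 k) ^ 2)
    (fun e he => by
      show Tendsto (fun k => (x k).l.T.pb (fun ω => ¬ gam (S.dl 1 k) ((x k).g ω) (Q.v k ((x k).l.p.π ω)) /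
        (S.dl u k / S.dl 1 k) ^ 2 ≤ 2 ^ (e * ((lb x).sp.F k).n))) UF (𝓝 0)
      have he2 : 0 < e / 2 := by linarith
      refine squeeze_zero' (Eventually.of_forall fun k => (x k).l.T.pb_nonneg _)
        (Eventually.of_forall fun k => FSp.pb_mono (x k).l.T ?_) (h (e / 2) he2)
      intro ω _ h1 h2
      apply h1
      rw [sp_n, div_le_iff₀ (by rw [key]; positivity), key, ← Real.rpow_add (by norm_num)]
      have h3 : gam (S.dl 1 k) ((x k).g ω) (Q.v k ((x k).l.p.π ω)) ≤ 2 ^ (2 * (1 - u + e / 2) * (S.F k).n) := h2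
      have e3 : e * (S.F k).n + 2 * (1 - u) * (S.F k).n = 2 * (1 - u + e / 2) * (S.F k).n := by ring
      rw [e3]
      exact h3)
  refine GrB.of_gam hx hu ⟨K, (sp_Sub _).mp hK, Typ.mono (S := Lab.sp (fun k => (x k).l)) hT ?_⟩
  refine Eventually.of_forall fun k ω _ h1 => ?_
  have h2 : gam (S.dl 1 k) ((x k).g ω) (Q.v k ((x k).l.p.π ω)) / (S.dl u k / S.dl 1 k) ^ 2 ≤ K k := h1
  rwa [div_le_iff₀ (by rw [key]; positivity)] at h2

/-- the exponents -/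
theorem gx_of_GQ {k : ℕ} {ω : (S.F k).Ω} {X Y : Matrix (Mon M D) (Mon M D) ℝ} (hX : PdM X) (hY : PdM Y) {t : ℝ}
    (h : gx Q k ω X - gx Q k ω Y ≤ t) :
    GQ (S.dl 1 k) X (Q.v k ω) ≤ 2 ^ (2 * t * (S.F k).n) * GQ (S.dl 1 k) Y (Q.v k ω) := by
  have hn := (S.F k).pos
  have h1 := one_le_GQ (S.dl 1 k) hX.1 hX.nonneg (Q.v k ω)
  have h2 := one_le_GQ (S.dl 1 k) hY.1 hY.nonneg (Q.v k ω)
  have h3 : Real.logb 2 (GQ (S.dl 1 k) X (Q.v k ω)) / (2 * (S.F k).n) -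
    Real.logb 2 (GQ (S.dl 1 k) Y (Q.v k ω)) / (2 * (S.F k).n) ≤ t := h
  rw [← sub_div, div_le_iff₀ (by positivity)] at h3
  have h4 : Real.logb 2 (GQ (S.dl 1 k) X (Q.v k ω)) ≤
      Real.logb 2 (2 ^ (2 * t * (S.F k).n) * GQ (S.dl 1 k) Y (Q.v k ω)) := by
    rw [Real.logb_mul (by positivity) (by linarith), Real.logb_rpow (by norm_num) (by norm_num)]
    linarith
  exact (Real.logb_le_logb (by norm_num) (by linarith) (by positivity)).mp h4

/-- the exponents of dominated forms -/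
theorem gx_dom {k : ℕ} {ω : (S.F k).Ω} {X Y : Matrix (Mon M D) (Mon M D) ℝ} (hX : PdM X) (hY : PdM Y) {ε : ℝ}
    (hε : 0 ≤ ε) (hd : ∀ v, v ⬝ᵥ (Y *ᵥ v) ≤ 2 ^ (ε * (S.F k).n) * (v ⬝ᵥ (X *ᵥ v))) :
    gx Q k ω Y ≤ gx Q k ω X + M * ε / 2 := by
  have hn := (S.F k).pos
  have hK : (1 : ℝ) ≤ 2 ^ (ε * (S.F k).n) := Real.one_le_rpow (by norm_num) (by positivity)
  have h1 := one_le_GQ (S.dl 1 k) hX.1 hX.nonneg (Q.v k ω)
  have h2 := one_le_GQ (S.dl 1 k) hY.1 hY.nonneg (Q.v k ω)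
  have h3 := GQ_dom (r := S.dl 1 k) hX hY hK hd (Q.v k ω)
  have h4 := Real.logb_le_logb_of_le (b := 2) (by norm_num) (by linarith) h3
  rw [Real.logb_mul (by positivity) (by linarith), Real.logb_pow, Real.logb_rpow (by norm_num) (by norm_num)] at h4
  show Real.logb 2 (GQ (S.dl 1 k) Y (Q.v k ω)) / (2 * (S.F k).n) ≤
    Real.logb 2 (GQ (S.dl 1 k) X (Q.v k ω)) / (2 * (S.F k).n) + M * ε / 2
  rw [div_add' _ _ _ (by positivity), div_le_div_iff_of_pos_right (by positivity)]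
  linarith

end

end Pool.Agent.Helper60.FST
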