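import Pool.Agent.Helper60.FST.Gvp

/-! GRADIENTS FROM VOLUMES, part 3: an optimal form, from one form of almost the same volume. -/

set_option autoImplicit false

namespace Pool.Agent.Helper60.FST

open Finset Filter Topology Matrix MvPolynomial Pool.Agent.Helper69.RK Pool.Agent.Helper31.EC
open Pool.Agent.Helper31.EC.Sp
open Pool.Agent.Helper40.EL Pool.Agent.Helper89.LX Pool.Agent.Helper3.LF Pool.Agent.Helper84.MT
open Pool.Agent.Helper95.LF
open Pool.Agent.Helper14.MC (gx vx vx_UB vol_eq)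
open Pool.Agent.Helper71.VIS (gx_bd gx_nn)

noncomputable section

variable {S : Sp} {M D : ℕ} {κ : Type} {C : LC S} {A : κ → Part S} {Q : S.VV M}

/-- arithmetic of the exponents -/
theorem gam_arith {n ε δ t M' : ℝ} (hn : 0 < n) (hM : 0 ≤ M') (ht : 0 ≤ t + ε)
    (hεδ : (M' + 2) * ε ≤ δ) (h2 : 2 * M' ≤ 2 ^ (δ * n)) (m : ℕ) (hm : (m : ℝ) = M') :
    M' * ((2 ^ (ε * n)) ^ m * 2 ^ (2 * δ * n) * (1 + 2 ^ (2 * (t + ε) * n))) ≤ (2 : ℝ) ^ (2 * (t + 2 * δ) * n) := by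
  have h1 : (1 : ℝ) ≤ 2 ^ (2 * (t + ε) * n) := Real.one_le_rpow (by norm_num) (by positivity)
  have e1 : ((2 : ℝ) ^ (ε * n)) ^ m = 2 ^ (M' * ε * n) := by
    rw [← Real.rpow_natCast, ← Real.rpow_mul (by norm_num), hm]
    congr 1
    ring
  have e2 : (2 : ℝ) ^ (M' * ε * n) * 2 ^ (2 * δ * n) * (2 * 2 ^ (2 * (t + ε) * n)) =
      2 * 2 ^ ((M' + 2) * ε * n + 2 * δ * n + 2 * t * n) := by
    rw [← Real.rpow_add (by norm_num), mul_left_comm, ← Real.rpow_add (by norm_num)]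
    congr 2
    ring
  have e3 : (2 : ℝ) ^ ((M' + 2) * ε * n + 2 * δ * n + 2 * t * n) ≤ 2 ^ (δ * n + 2 * δ * n + 2 * t * n) := by
    apply Real.rpow_le_rpow_of_exponent_le (by norm_num)
    have := mul_le_mul_of_nonneg_right hεδ hn.le
    linarith
  have e4 : (2 : ℝ) ^ (2 * (t + 2 * δ) * n) = 2 ^ (δ * n) * 2 ^ (δ * n + 2 * δ * n + 2 * t * n) := by
    rw [← Real.rpow_add (by norm_num)]
    congr 1
    ring
  rw [e1, e4]
  have h3 : (0 : ℝ) ≤ 2 ^ (M' * ε * n) * 2 ^ (2 * δ * n) := by positivity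
  have h4 : (0 : ℝ) ≤ 2 ^ (δ * n + 2 * δ * n + 2 * t * n) := by positivity
  calc M' * (2 ^ (M' * ε * n) * 2 ^ (2 * δ * n) * (1 + 2 ^ (2 * (t + ε) * n))) ≤
        M' * (2 ^ (M' * ε * n) * 2 ^ (2 * δ * n) * (2 * 2 ^ (2 * (t + ε) * n))) :=
        mul_le_mul_of_nonneg_left (mul_le_mul_of_nonneg_left (by linarith) h3) hM
    _ = 2 * M' * 2 ^ ((M' + 2) * ε * n + 2 * δ * n + 2 * t * n) := by
        rw [e2]
        ring
    _ ≤ 2 * M' * 2 ^ (δ * n + 2 * δ * n + 2 * t * n) := mul_le_mul_of_nonneg_left e3 (by linarith)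
    _ ≤ 2 ^ (δ * n) * 2 ^ (δ * n + 2 * δ * n + 2 * t * n) := mul_le_mul_of_nonneg_right h2 h4

/-- **GRADIENTS OF AN OPTIMAL FORM**, from one form of the class of the same volume up to `η` -/
theorem gam_prob {x y : ∀ k, FD (S.F k) (Mon M D)} (hx : (gaq Q D).OptfK C A x) (hy : (gaq Q D).AdfK C A y)
    {u η : ℝ} (hu : GrB Q y u) (hu1 : u ≤ 1) (hv : vol Q D y ≤ vol Q D x + η) {δ : ℝ} (hδ : 0 < δ) :
    ∀ᶠ k in UF, (x k).l.T.pb (fun ω => ¬ Gd Q x (1 - u + 2 * δ) k ω) ≤ η / δ + δ := by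
  classical
  have hM0 : (0 : ℝ) ≤ M := Nat.cast_nonneg M
  -- the constants
  obtain ⟨ε, hε, hε1, hε2⟩ : ∃ ε : ℝ, 0 < ε ∧ ((M : ℝ) + 2) * ε ≤ δ ∧ M * ε / 2 ≤ δ ^ 2 / 8 := by
    refine ⟨min (δ / (M + 2)) (δ ^ 2 / (4 * (M + 1))), lt_min (by positivity) (by positivity), ?_, ?_⟩
    · calc ((M : ℝ) + 2) * min (δ / (M + 2)) (δ ^ 2 / (4 * (M + 1))) ≤ (M + 2) * (δ / (M + 2)) :=
          mul_le_mul_of_nonneg_left (min_le_left _ _) (by positivity)
        _ = δ := by field_simp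
    · have h1 : min (δ / ((M : ℝ) + 2)) (δ ^ 2 / (4 * (M + 1))) ≤ δ ^ 2 / (4 * (M + 1)) := min_le_right _ _
      have h2 : (M : ℝ) * (δ ^ 2 / (4 * (M + 1))) ≤ δ ^ 2 / 4 := by
        rw [← mul_div_assoc, div_le_div_iff₀ (by positivity) (by norm_num)]
        nlinarith [sq_nonneg δ]
      have h3 := mul_le_mul_of_nonneg_left h1 hM0
      linarith
  set c : ℝ := ((gaq Q D).C + 1 + 3) * M with hc
  have hC0 := (gaq Q D).C0
  have hc0 : 0 ≤ c := by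
    rw [hc]
    exact mul_nonneg (by linarith) hM0
  -- the bad event
  set P : ∀ k, FSp := fun k => ((x k).l.am (y k).l).sp with hP
  set B : ∀ k, (P k).Ω → Prop := fun k w =>
    (¬ ∀ v, qf (((x k).jj (y k)).g' w) v ≤ 2 ^ (ε * (S.F k).n) * qf (((x k).jj (y k)).g w) v) ∨
    ¬ Gd Q y (1 - u + ε) k (((x k).l.am (y k).l).p2.π w) with hB
  have hT : Tendsto (fun k => (P k).pb (B k)) UF (𝓝 0) := by
    have h1 := (Gau.OptfK.dom (gaq Q D) hx hy ε hε).add (gd_of_GrB hu ε hε)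
    rw [add_zero] at h1
    refine tendsto_of_tendsto_of_tendsto_of_le_of_le tendsto_const_nhds h1 (fun k => (P k).pb_nonneg _) (fun k => ?_)
    have h5 := pb_push ((x k).l.am (y k).l).p2 (fun ω => ¬ Gd Q y (1 - u + ε) k ω)
    show (P k).pb (B k) ≤ ((x k).jj (y k)).l.T.pb _ + (y k).l.T.pb _
    rw [← h5]
    exact pb_or _ _ _
  -- the volumes
  have hUx := vx_UB hx.1.1
  have hUy := vx_UB hy.1
  have hvol : ∀ᶠ k in UF, vx Q x k - vx Q y k ≤ η + δ ^ 2 / 8 := by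
    have h1 : Tendsto (fun k => vx Q x k - vx Q y k) UF (𝓝 (ul (vx Q x) - ul (vx Q y))) :=
      (ul_tendsto hUx).sub (ul_tendsto hUy)
    have h2 : ul (vx Q x) - ul (vx Q y) ≤ η := by
      rw [vol_eq, vol_eq] at hv
      linarith
    have h3 : ul (vx Q x) - ul (vx Q y) < η + δ ^ 2 / 8 := by
      have : 0 < δ ^ 2 := by positivity
      linarith
    exact (h1.eventually (gt_mem_nhds h3)).mono fun k hk => hk.le
  have hB1 : ∀ᶠ k in UF, c * (P k).pb (B k) < δ ^ 2 / 8 := by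
    have h1 := hT.const_mul c
    rw [mul_zero] at h1
    exact h1.eventually (gt_mem_nhds (by positivity))
  have hB2 : ∀ᶠ k in UF, (P k).pb (B k) < δ / 8 := hT.eventually (gt_mem_nhds (by positivity))
  filter_upwards [hx.1.1 1 one_pos, hy.1 1 one_pos, gx_bd hy.1, gx_nn hx.1.1, hvol, hB1, hB2,
    (S.Sub_const (by positivity : (0 : ℝ) ≤ 2 * M)).eventually_le hδ] with k a1 a2 a3 a4 a5 a6 a7 a8
  have hn := (S.F k).pos
  set J := (x k).l.am (y k).l with hJ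
  set f : (P k).Ω → ℝ := fun w => gx Q k ((x k).l.p.π (J.p1.π w)) ((x k).g (J.p1.π w)) -
    gx Q k ((y k).l.p.π (J.p2.π w)) ((y k).g (J.p2.π w)) + M * ε / 2 with hf
  have hsup : ∀ w : (P k).Ω, (P k).μ w ≠ 0 → (x k).l.p.π (J.p1.π w) = (y k).l.p.π (J.p2.π w) := fun w hw =>
    (x k).jj_supp (y k) w hw
  have h1 : ∀ w : (P k).Ω, (P k).μ w ≠ 0 → ¬ B k w → 0 ≤ f w := by
    intro w hw hb
    rw [hB, not_or, not_not, not_not] at hb
    have b1 := (a1.2.1 _ (J.p1.supp w hw)).1.pdM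
    have b2 := (a2.2.1 _ (J.p2.supp w hw)).1.pdM
    have b3 := gx_dom (Q := Q) (k := k) (ω := (x k).l.p.π (J.p1.π w)) b1 b2 hε.le hb.1
    have b4 : gx Q k ((y k).l.p.π (J.p2.π w)) ((y k).g (J.p2.π w)) =
        gx Q k ((x k).l.p.π (J.p1.π w)) ((y k).g (J.p2.π w)) := by
      rw [hsup w hw]
    show 0 ≤ gx Q k ((x k).l.p.π (J.p1.π w)) ((x k).g (J.p1.π w)) -
      gx Q k ((y k).l.p.π (J.p2.π w)) ((y k).g (J.p2.π w)) + M * ε / 2
    rw [b4]
    linarith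
  have h2 : ∀ w : (P k).Ω, (P k).μ w ≠ 0 → - c ≤ f w := by
    intro w hw
    have b1 := a3 _ (J.p2.supp w hw)
    have b2 := a4 _ (J.p1.supp w hw)
    have b3 : 0 ≤ M * ε / 2 := by positivity
    show - c ≤ gx Q k ((x k).l.p.π (J.p1.π w)) ((x k).g (J.p1.π w)) -
      gx Q k ((y k).l.p.π (J.p2.π w)) ((y k).g (J.p2.π w)) + M * ε / 2
    linarith
  have h3 := pb_markov f (B k) (c := c) (t := δ + M * ε / 2) h1 h2
  have h4 : ∑ w, (P k).μ w * f w = vx Q x k - vx Q y k + M * ε / 2 := by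
    have c1 := sum_push J.p1 (fun ω => gx Q k ((x k).l.p.π ω) ((x k).g ω))
    have c2 := sum_push J.p2 (fun ω => gx Q k ((y k).l.p.π ω) ((y k).g ω))
    have c3 : ∑ w, (P k).μ w = 1 := (P k).ms
    have c4 : ∑ w, (P k).μ w * f w = ∑ w, (P k).μ w * gx Q k ((x k).l.p.π (J.p1.π w)) ((x k).g (J.p1.π w)) -
        ∑ w, (P k).μ w * gx Q k ((y k).l.p.π (J.p2.π w)) ((y k).g (J.p2.π w)) +
          (∑ w, (P k).μ w) * (M * ε / 2) := by
      rw [Finset.sum_mul, ← Finset.sum_sub_distrib, ← Finset.sum_add_distrib]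
      refine Finset.sum_congr rfl fun w _ => ?_
      show (P k).μ w * (gx Q k ((x k).l.p.π (J.p1.π w)) ((x k).g (J.p1.π w)) -
        gx Q k ((y k).l.p.π (J.p2.π w)) ((y k).g (J.p2.π w)) + M * ε / 2) = _
      ring
    rw [c4, c3, one_mul]
    have c5 : ∑ w, (P k).μ w * gx Q k ((x k).l.p.π (J.p1.π w)) ((x k).g (J.p1.π w)) = vx Q x k := c1
    have c6 : ∑ w, (P k).μ w * gx Q k ((y k).l.p.π (J.p2.π w)) ((y k).g (J.p2.π w)) = vx Q y k := c2
    rw [c5, c6]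
  -- the event of the form
  have h5 : (x k).l.T.pb (fun ω => ¬ Gd Q x (1 - u + 2 * δ) k ω) ≤
      (P k).pb (B k) + (P k).pb (fun w => ¬ B k w ∧ δ + M * ε / 2 < f w) := by
    rw [← pb_push J.p1 (fun ω => ¬ Gd Q x (1 - u + 2 * δ) k ω)]
    refine le_trans (FSp.pb_mono _ (E' := fun w : (P k).Ω => B k w ∨ (¬ B k w ∧ δ + M * ε / 2 < f w)) ?_) (pb_or _ _ _)
    intro w hw h6
    by_contra hcon
    rw [not_or, not_and] at hcon
    obtain ⟨hb, hcon⟩ := hcon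
    have h7 := hcon hb
    rw [not_lt] at h7
    rw [hB, not_or, not_not, not_not] at hb
    apply h6
    have b1 := (a1.2.1 _ (J.p1.supp w hw)).1.pdM
    have b2 := (a2.2.1 _ (J.p2.supp w hw)).1.pdM
    have b4 : gx Q k ((y k).l.p.π (J.p2.π w)) ((y k).g (J.p2.π w)) =
        gx Q k ((x k).l.p.π (J.p1.π w)) ((y k).g (J.p2.π w)) := by
      rw [hsup w hw]
    have h8 : gx Q k ((x k).l.p.π (J.p1.π w)) ((x k).g (J.p1.π w)) -
        gx Q k ((x k).l.p.π (J.p1.π w)) ((y k).g (J.p2.π w)) ≤ δ := by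
      have h9 : gx Q k ((x k).l.p.π (J.p1.π w)) ((x k).g (J.p1.π w)) -
        gx Q k ((y k).l.p.π (J.p2.π w)) ((y k).g (J.p2.π w)) + M * ε / 2 ≤ δ + M * ε / 2 := h7
      rw [b4] at h9
      linarith
    have h9 := gx_of_GQ b1 b2 h8
    have h10 : gam (S.dl 1 k) ((y k).g (J.p2.π w)) (Q.v k ((x k).l.p.π (J.p1.π w))) ≤
        2 ^ (2 * (1 - u + ε) * (S.F k).n) := by
      rw [hsup w hw]
      exact hb.2
    have hK : (1 : ℝ) ≤ 2 ^ (ε * (S.F k).n) := Real.one_le_rpow (by norm_num) (by positivity)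
    have h11 := gam_near b1 b2 hK (by positivity) hb.1 h9 h10
    refine h11.trans ?_
    exact gam_arith hn hM0 (by linarith) hε1 (by linarith) M rfl
  have h6 : δ * (P k).pb (fun w => ¬ B k w ∧ δ + M * ε / 2 < f w) ≤ η + 3 * (δ ^ 2 / 8) := by
    have h7 : δ * (P k).pb (fun w => ¬ B k w ∧ δ + M * ε / 2 < f w) ≤
        (δ + M * ε / 2) * (P k).pb (fun w => ¬ B k w ∧ δ + M * ε / 2 < f w) := by
      have h8 := (P k).pb_nonneg (fun w => ¬ B k w ∧ δ + M * ε / 2 < f w)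
      have h9 : 0 ≤ M * ε / 2 := by positivity
      nlinarith
    rw [h4] at h3
    linarith
  have h7 : (P k).pb (fun w => ¬ B k w ∧ δ + M * ε / 2 < f w) ≤ η / δ + 3 * (δ / 8) := by
    have h8 : η / δ + 3 * (δ / 8) = (η + 3 * (δ ^ 2 / 8)) / δ := by
      field_simp
    rw [h8, le_div_iff₀ hδ]
    linarith
  linarith

end

end Pool.Agent.Helper60.FST
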