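import Pool.Agent.Helper60.FST.Gvq

/-! GRADIENTS FROM VOLUMES, part 4: all forms of the class. -/

set_option autoImplicit false

namespace Pool.Agent.Helper60.FST

open Finset Filter Topology Matrix MvPolynomial Pool.Agent.Helper69.RK Pool.Agent.Helper31.EC
open Pool.Agent.Helper31.EC.Sp
open Pool.Agent.Helper40.EL Pool.Agent.Helper89.LX Pool.Agent.Helper3.LF Pool.Agent.Helper84.MT
open Pool.Agent.Helper95.LF
open Pool.Agent.Helper69.DGR (upm upm_symm upm_qf upm_ge Jq_upm upx upx_Adf vol_upx cE cE_one)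
open Pool.Agent.Helper14.MC (gx vx vx_UB vol_eq)
open Pool.Agent.Helper7.RD (volC volCO volC_eq volC_le_of volCO_le)

noncomputable section

variable {S : Sp} {M D D' : ℕ} {κ : Type} {C : LC S} {A : κ → Part S} {Q : S.VV M}

theorem gam_sum (r : ℝ) (B : Matrix (Mon M D) (Mon M D) ℝ) (p : Fin M → ℝ) :
    gam r B p = ∑ i, (Pi.single i 1 : Fin M → ℝ) ⬝ᵥ (Jq r B p *ᵥ Pi.single i 1) := by
  unfold gam
  refine Finset.sum_congr rfl fun i _ => ?_
  rw [single_dotProduct, one_mul, mulVec_single_one]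
  exact (Jq_apply r B p i i).symm

/-- gradients of a form from a dominating form of larger degree -/
theorem gam_up (h : D ≤ D') {X : Matrix (Mon M D') (Mon M D') ℝ} {Y : Matrix (Mon M D) (Mon M D) ℝ} (hY : PdM Y)
    {r K : ℝ} (hr : 0 < r) (hd : ∀ v, v ⬝ᵥ (upm h Y *ᵥ v) ≤ K * (v ⬝ᵥ (X *ᵥ v))) (p : Fin M → ℝ) :
    gam r Y p ≤ (nn M D * Cm M D' ^ 2) * (K * gam r X p) := by
  have h0 : 0 ≤ nn M D * Cm M D' ^ 2 := by
    have := nn_one M D
    positivity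
  rw [gam_sum, gam_sum, Finset.mul_sum, Finset.mul_sum]
  refine Finset.sum_le_sum fun i _ => ?_
  refine (Jq_upm h Y hY r hr p _).trans (mul_le_mul_of_nonneg_left ?_ h0)
  rw [Jq_qf, Jq_qf, Finset.mul_sum]
  exact Finset.sum_le_sum fun j _ => hd _

/-- **THE GRADIENTS OF ALL FORMS OF THE CLASS**, from forms of large degree with almost the least volume of all
degrees -/
theorem grb_of_vol {x : ∀ k, FD (S.F k) (Mon M D)} (hx : (gaq Q D).AdfK C A x) {u : ℝ} (hu1 : u ≤ 1)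
    [Finite κ] (h : ∀ (η : ℝ) (D₀ : ℕ), 0 < η → ∃ (D' : ℕ) (y : ∀ k, FD (S.F k) (Mon M D')), D₀ ≤ D' ∧
      (gaq Q D').AdfK C A y ∧ GrB Q y u ∧ vol Q D' y ≤ volCO C A Q + η) : GrB Q x u := by
  classical
  refine GrB_of_gd hx.1.fm hu1 fun e he => ?_
  rw [Metric.tendsto_nhds]
  intro ε₀ hε₀
  obtain ⟨δ, hδ, hδ1, hδ2⟩ : ∃ δ : ℝ, 0 < δ ∧ 4 * δ ≤ e ∧ 4 * δ ≤ ε₀ :=
    ⟨min (e / 4) (ε₀ / 4), lt_min (by linarith) (by linarith), by linarith [min_le_left (e / 4) (ε₀ / 4)],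
      by linarith [min_le_right (e / 4) (ε₀ / 4)]⟩
  obtain ⟨D', y, hD, hy, hyu, hyv⟩ := h (δ ^ 2) D (by positivity)
  obtain ⟨X, hX⟩ := (gaq Q D').exists_optfK C A
  have hv : vol Q D' y ≤ vol Q D' X + δ ^ 2 := by
    have h1 := volCO_le (C := C) (A := A) (Q := Q) D'
    rw [volC_eq hX] at h1
    linarith
  have h1 := gam_prob hX hy hyu hu1 hv hδ
  have e1 : δ ^ 2 / δ + δ = 2 * δ := by
    field_simp
    ring
  rw [e1] at h1
  have hup : (gaq Q D').AdfK C A (fun k => upx hD (x k)) := ⟨upx_Adf hD hx.1, hx.2⟩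
  have h2 := Gau.OptfK.dom (gaq Q D') hX hup δ hδ
  have h0 : (0 : ℝ) ≤ nn M D * Cm M D' ^ 2 := by
    have := nn_one M D
    positivity
  filter_upwards [h1, h2.eventually (gt_mem_nhds hδ), hx.1 1 one_pos, (S.Sub_const h0).eventually_le hδ,
    hX.1.1 1 one_pos] with k b1 b2 b3 b4 b5
  have hn := (S.F k).pos
  rw [Real.dist_eq, sub_zero, abs_of_nonneg ((x k).l.T.pb_nonneg _)]
  set J := (X k).l.am (upx hD (x k)).l with hJ
  have h3 : (x k).l.T.pb (fun ω => ¬ Gd Q x (1 - u + e) k ω) ≤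
      J.sp.pb (fun w => ¬ ∀ v, qf (((X k).jj (upx hD (x k))).g' w) v ≤
        2 ^ (δ * (S.F k).n) * qf (((X k).jj (upx hD (x k))).g w) v) +
      (X k).l.T.pb (fun ω => ¬ Gd Q X (1 - u + 2 * δ) k ω) := by
    have c1 : (x k).l.T.pb (fun ω => ¬ Gd Q x (1 - u + e) k ω) =
        J.sp.pb (fun w => ¬ Gd Q x (1 - u + e) k (J.p2.π w)) :=
      (pb_push J.p2 (fun ω => ¬ Gd Q x (1 - u + e) k ω)).symm
    rw [c1, ← pb_push J.p1 (fun ω => ¬ Gd Q X (1 - u + 2 * δ) k ω)]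
    refine le_trans (FSp.pb_mono _ (E' := fun w : J.sp.Ω =>
      (¬ ∀ v, qf (((X k).jj (upx hD (x k))).g' w) v ≤
        2 ^ (δ * (S.F k).n) * qf (((X k).jj (upx hD (x k))).g w) v) ∨ ¬ Gd Q X (1 - u + 2 * δ) k (J.p1.π w)) ?_)
      (pb_or _ _ _)
    intro w hw h6
    by_contra hcon
    rw [not_or, not_not, not_not] at hcon
    apply h6
    have d1 : (X k).l.p.π (J.p1.π w) = (x k).l.p.π (J.p2.π w) := (X k).jj_supp (upx hD (x k)) w hw
    have d0 : PdM ((X k).g (J.p1.π w)) := (b5.2.1 _ (J.p1.supp w hw)).1.pdM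
    have d2 : PdM ((x k).g (J.p2.π w)) := (b3.2.1 _ (J.p2.supp w hw)).1.pdM
    have d3 : ∀ v, v ⬝ᵥ (upm hD ((x k).g (J.p2.π w)) *ᵥ v) ≤ 2 ^ (δ * (S.F k).n) *
      (v ⬝ᵥ ((X k).g (J.p1.π w) *ᵥ v)) := hcon.1
    have d4 := gam_up hD d2 (S.dl_pos 1 k) d3 (Q.v k ((x k).l.p.π (J.p2.π w)))
    have d5 : gam (S.dl 1 k) ((X k).g (J.p1.π w)) (Q.v k ((X k).l.p.π (J.p1.π w))) ≤
      2 ^ (2 * (1 - u + 2 * δ) * (S.F k).n) := hcon.2
    rw [d1] at d5
    show gam (S.dl 1 k) ((x k).g (J.p2.π w)) (Q.v k ((x k).l.p.π (J.p2.π w))) ≤ 2 ^ (2 * (1 - u + e) * (S.F k).n)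
    refine d4.trans ?_
    calc (nn M D * Cm M D' ^ 2) * (2 ^ (δ * (S.F k).n) * gam (S.dl 1 k) ((X k).g (J.p1.π w))
          (Q.v k ((x k).l.p.π (J.p2.π w)))) ≤
          2 ^ (δ * (S.F k).n) * (2 ^ (δ * (S.F k).n) * 2 ^ (2 * (1 - u + 2 * δ) * (S.F k).n)) := by
          refine mul_le_mul (by linarith) (mul_le_mul_of_nonneg_left d5 (by positivity)) ?_ (by positivity)
          refine mul_nonneg (by positivity) ?_
          rw [gam_sum]
          exact Finset.sum_nonneg fun i _ => Jq_nonneg _ d0.nonneg _ _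
      _ = 2 ^ ((2 * (1 - u) + 6 * δ) * (S.F k).n) := by
          rw [← Real.rpow_add (by norm_num), ← Real.rpow_add (by norm_num)]
          congr 1
          ring
      _ ≤ 2 ^ (2 * (1 - u + e) * (S.F k).n) := by
          apply Real.rpow_le_rpow_of_exponent_le (by norm_num)
          apply mul_le_mul_of_nonneg_right _ hn.le
          linarith
  have h4 : J.sp.pb (fun w => ¬ ∀ v, qf (((X k).jj (upx hD (x k))).g' w) v ≤
        2 ^ (δ * (S.F k).n) * qf (((X k).jj (upx hD (x k))).g w) v) < δ := b2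
  linarith

end

end Pool.Agent.Helper60.FST
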