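import Pool.Agent.Helper60.FST.Gvr
import Pool.Agent.Helper71.VIS.Trk

/-! If the codimension of the K-hull of a window does not increase from the level `e` to the level `1`, all K-forms of the
window have gradients of the size `2 ^ (e n)`. -/

set_option autoImplicit false

namespace Pool.Agent.Helper60.FST

open Finset Filter Topology Matrix MvPolynomial Pool.Agent.Helper69.RK Pool.Agent.Helper31.EC
open Pool.Agent.Helper31.EC.Sp
open Pool.Agent.Helper40.EL Pool.Agent.Helper89.LX Pool.Agent.Helper3.LF Pool.Agent.Helper84.MT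
open Pool.Agent.Helper7.RD (volC volCO volC_eq volC_le_of volCO_le)
open Pool.Agent.Helper29.MX
open Pool.Agent.Helper87.NSL (cndR KnS)
open Pool.Agent.Helper71.VIS

noncomputable section

variable {S : Sp} {N D : ℕ} {E : ℕ → ℕ} {ι : Type}

/-- **[LVF]**, any resolution -/
theorem lvf_all [Finite ι] (s : MSys S N E ι) (R : Rsl S) {e c : ℝ} (he : 0 < e) (h1 : e ≤ 1)
    (h : N - volKO s R c ≤ e * (N - volKO (s.trn e he h1) R (c / e))) {x : ∀ k, FD (S.F k) (Mon N D)}
    (hx : KAd s R D c x) : GrB s.Q x (1 - e) := by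
  have hec : e * (c / e) = c := by field_simp
  refine grb_of_vol (C := KZ R) (A := cndR s R c) hx (by linarith) fun η D₀ hη => ?_
  have e1 := volKO_eq s R c
  have e2 := volKO_eq (S := S.chg S.tr e he) (s.trn e he h1) R (c / e)
  have h' : N - volCO (KZ R) (cndR s R c) s.Q ≤ e * (N - volCO (KZ (S := S.chg S.tr e he) R)
      (cndR (s.trn e he h1) R (c / e)) (s.trn e he h1).Q) :=
    (le_of_eq (congrArg (fun t => (N : ℝ) - t) e1.symm)).trans
      (h.trans (le_of_eq (congrArg (fun t => e * ((N : ℝ) - t)) e2)))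
  obtain ⟨D₁, hD₁⟩ := Pool.Agent.Helper84.KR.volCO_lt (C := KZ (S := S.chg S.tr e he) R)
    (A := cndR (s.trn e he h1) R (c / e)) (Q := (s.trn e he h1).Q) (lt_add_of_pos_right _ hη)
  set D' : ℕ := max D₀ D₁ with hD'
  obtain ⟨y, hy⟩ := (gaq (s.trn e he h1).Q D').exists_optfK (KZ (S := S.chg S.tr e he) R)
    (cndR (s.trn e he h1) R (c / e))
  have h2 := hD₁ D' (le_max_right _ _)
  rw [volC_eq hy] at h2
  have h3 := hy.1
  rw [cndR_trn, hec] at h3
  refine ⟨D', untFD s.Q e he y, le_max_left _ _, ?_, untFD_GrB h1 h3.1, ?_⟩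
  · rw [cndR_fcs]
    exact untFD_adK h1 h3
  · have h4 := vol_untFD h1 h3.1
    have h5 : vol (s.trn e he h1).Q D' y = vol (s.Q.chg S.tr e he) D' y := rfl
    rw [h5] at h2
    have h6 : e * (N - vol (s.Q.chg S.tr e he) D' y) ≥ e * (N - volCO (KZ (S := S.chg S.tr e he) R)
        (cndR (s.trn e he h1) R (c / e)) (s.trn e he h1).Q) - e * η := by
      have h7 := mul_le_mul_of_nonneg_left h2.le he.le
      linarith
    have h7 : e * η ≤ η := by nlinarith
    linarith

end

end Pool.Agent.Helper60.FST
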